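import Pool.Agent.H84.KBOX.StmtsU

/-!
# Row SLI: leaves are inherited by sets of points
-/

set_option autoImplicit false

namespace Pool.Agent.H60.KBX

open Finset Real
open Pool.Agent.H49.Ent Pool.Agent.H32.Dense Pool.STK Pool.KAF Pool.KAL Pool.KS3 Pool.KBX

theorem sli_thm : SLIStmt := by
  classical
  intro n Ω Λ Ξ _ p lam x T pos A B μ L C₀ δ ε e₁ e₃ a S hSL ha hS
  have hp : IsLaw p := hSL.leaf.isLaw
  have hP : 0 < Pr p {ω | x ω ∈ S} := (Real.exp_pos _).trans_le hS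
  have hr := Pool.KBX.rs_isLaw hp hP
  have hinv : (Pr p {ω | x ω ∈ S})⁻¹ ≤ Real.exp a := by
    rw [inv_le_comm₀ hP (Real.exp_pos _), ← Real.exp_neg]
    exact hS
  refine ⟨⟨hr, hSL.leaf.T_lt, hSL.leaf.pos_lt, hSL.leaf.near, hSL.leaf.A_le, hSL.leaf.B_le⟩,
    hSL.δ_pos, hSL.ε_nonneg, fun ω hω u hu => ?_, by linarith [hSL.e₁_nonneg], hSL.e₃_nonneg,
    hSL.μ_nonneg, hSL.μ_sum, fun ω => ?_, fun F hF h1 h2 => ?_⟩
  · rw [Pool.KBX.rs_pos hp] at hω
    have h1 := hSL.ncf ω hω.1 u hu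
    have h2 : ∀ ω', x ω' = x ω →
        rs p {ω | x ω ∈ S} ω' = (Pr p {ω | x ω ∈ S})⁻¹ * p ω' := by
      intro ω' h
      rw [Pool.KBX.rs_eq]
      have : ω' ∈ {ω | x ω ∈ S} := by
        show x ω' ∈ S
        rw [h]; exact hω.2
      rw [if_pos this]
      ring
    have h3 : law (rs p {ω | x ω ∈ S}) x (x ω) = (Pr p {ω | x ω ∈ S})⁻¹ * law p x (x ω) := by
      unfold law
      rw [Finset.mul_sum]
      refine Finset.sum_congr rfl fun ω' _ => ?_
      split_ifs with h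
      · exact h2 ω' h
      · simp
    have h4 : (∑ ω', if x ω' = x ω ∧ |∑ i, u i * B (lam ω') (some i)| ≤ δ then
        rs p {ω | x ω ∈ S} ω' else 0) = (Pr p {ω | x ω ∈ S})⁻¹ *
        ∑ ω', if x ω' = x ω ∧ |∑ i, u i * B (lam ω') (some i)| ≤ δ then p ω' else 0 := by
      rw [Finset.mul_sum]
      refine Finset.sum_congr rfl fun ω' _ => ?_
      split_ifs with h
      · exact h2 ω' h.1
      · simp
    rw [h3]
    have h5 := mul_le_mul_of_nonneg_left h1 (inv_nonneg.2 hP.le)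
    have h6 : ε * ((Pr p {ω | x ω ∈ S})⁻¹ * law p x (x ω)) =
      (Pr p {ω | x ω ∈ S})⁻¹ * (ε * law p x (x ω)) := by ring
    rw [h6]
    refine le_trans (le_of_eq ?_) h5
    convert h4
  · have h1 := hSL.time ω
    have h2 : law (rs p {ω | x ω ∈ S}) (fun ω => (lam ω, T (x ω))) (lam ω, T (x ω)) ≤
        (Pr p {ω | x ω ∈ S})⁻¹ * law p (fun ω => (lam ω, T (x ω))) (lam ω, T (x ω)) := by
      unfold law
      rw [Finset.mul_sum]
      refine Finset.sum_le_sum fun ω' _ => ?_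
      split_ifs with h
      · rw [Pool.KBX.rs_eq]
        split_ifs with h'
        · exact le_of_eq (by ring)
        · exact mul_nonneg (inv_nonneg.2 hP.le) (hp.nonneg ω')
      · simp
    refine h2.trans ?_
    have h3 : 0 ≤ law p (fun ω => (lam ω, T (x ω))) (lam ω, T (x ω)) := by
      unfold law
      exact Finset.sum_nonneg fun ω' _ => by split_ifs; exacts [hp.nonneg ω', le_rfl]
    calc (Pr p {ω | x ω ∈ S})⁻¹ * law p (fun ω => (lam ω, T (x ω))) (lam ω, T (x ω))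
        ≤ Real.exp a * (Real.exp e₁ * μ (lam ω) / 2 ^ L) :=
          mul_le_mul hinv h1 h3 (Real.exp_pos _).le
      _ = Real.exp (e₁ + a) * μ (lam ω) / 2 ^ L := by
          rw [Real.exp_add]; ring
  · exact hSL.thin F (fun ω hω => ((Pool.KBX.rs_pos hp).1 (hF ω hω)).1) h1 h2

end Pool.Agent.H60.KBX
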